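import Mathlib

/-!
# MP_c7af3c_ag: choice of independent vectors in a family
-/

set_option autoImplicit false

namespace Pool.Agent.Lines.H75

section

variable {L : Type} [Field L]

/-- an independent family can be completed by vectors of a given family -/
theorem ext_fam {V : Type} [AddCommGroup V] [Module L V] [FiniteDimensional L V] {α β : Type}
    [Finite α] (v : α → V) (hv : LinearIndependent L v) (f : β → V) :
    ∃ (t : ℕ) (φ : Fin t → β), LinearIndependent L (Sum.elim v (f ∘ φ)) ∧
      ∀ b, f b ∈ Submodule.span L (Set.range (Sum.elim v (f ∘ φ))) := by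
  classical
  have := Fintype.ofFinite α
  let P : ℕ → Prop := fun t => ∃ φ : Fin t → β, LinearIndependent L (Sum.elim v (f ∘ φ))
  have h0 : P 0 := by
    refine ⟨Fin.elim0, ?_⟩
    have h1 : LinearIndependent L (f ∘ (Fin.elim0 : Fin 0 → β)) := linearIndependent_empty_type
    refine hv.sum_type h1 ?_
    rw [Set.range_eq_empty (f ∘ (Fin.elim0 : Fin 0 → β)), Submodule.span_empty]
    exact disjoint_bot_right
  have hb : ∀ t, P t → t ≤ Module.finrank L V := by
    rintro t ⟨φ, hφ⟩
    have h1 := hφ.fintype_card_le_finrank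
    rw [Fintype.card_sum, Fintype.card_fin] at h1
    omega
  obtain ⟨t, ht, hmax⟩ : ∃ t, P t ∧ ∀ t', P t' → t' ≤ t := by
    refine ⟨Nat.findGreatest P (Module.finrank L V), Nat.findGreatest_spec (Nat.zero_le _) h0,
      fun t' ht' => Nat.le_findGreatest (hb t' ht') ht'⟩
  obtain ⟨φ, hφ⟩ := ht
  refine ⟨t, φ, hφ, fun b => ?_⟩
  by_contra hcon
  have hne : f b ≠ 0 := fun h => hcon (by rw [h]; exact Submodule.zero_mem _)
  have h1 : LinearIndependent L (fun _ : Unit => f b) := by
    rw [linearIndependent_unique_iff]
    exact hne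
  have h2 : LinearIndependent L (Sum.elim (Sum.elim v (f ∘ φ)) (fun _ : Unit => f b)) := by
    refine hφ.sum_type h1 ?_
    rw [Set.range_const]
    exact (Submodule.disjoint_span_singleton' hne).2 hcon
  have h3 : P (t + 1) := by
    refine ⟨Fin.snoc (α := fun _ => β) φ b, ?_⟩
    let g : α ⊕ Fin (t + 1) → (α ⊕ Fin t) ⊕ Unit :=
      Sum.elim (fun a => Sum.inl (Sum.inl a))
        (Fin.snoc (α := fun _ => (α ⊕ Fin t) ⊕ Unit) (fun i => Sum.inl (Sum.inr i)) (Sum.inr ()))
    have hg : Function.Injective g := by
      rintro (a | i) (a' | i') h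
      · simpa [g] using h
      · exfalso
        revert h
        refine Fin.lastCases ?_ (fun i => ?_) i' <;> simp [g]
      · exfalso
        revert h
        refine Fin.lastCases ?_ (fun i => ?_) i <;> simp [g]
      · revert h
        refine Fin.lastCases ?_ (fun i => ?_) i <;> refine Fin.lastCases ?_ (fun i => ?_) i' <;>
          simp [g]
    have h4 := h2.comp g hg
    convert h4 using 1
    funext a
    rcases a with a | i
    · rfl
    · refine Fin.lastCases ?_ (fun i => ?_) i <;> simp [g]
  have := hmax _ h3
  omega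

end

end Pool.Agent.Lines.H75
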