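import Pool.Agent.Lib.MP_c7af3c_ag.LINES.H75.Gen
import Pool.Agent.Lib.MP_c7af3c_ag.LINES.H75.Ext

/-!
# MP_c7af3c_ag, project LINES: the variations of a line, choice of the columns (module LVAR)
-/

set_option autoImplicit false

namespace Pool.Agent.Lines.H75

open MvPolynomial Pool.Agent.Gen
open Pool.Agent.Sharp.H75 (Tup Mt IL Hom TT op afT mv dt af S0 RR Comm)

section

variable {L : Type} [Field L] {n c : ℕ} {d : Fin c → ℕ} (D : DSys L n c d)
  (z : Fin 2 → Fin (n + 1) → L)

/-- the rows -/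
abbrev RW (L : Type) (n : ℕ) : Type := Fin 2 × Fin (n + 1) → L

/-- the fixed columns -/
def fx (a : Fin 2 × Fin 2) : RW L n := fun r => if r.1 = a.1 then z a.2 r.2 else 0

/-- `V` at two points -/
noncomputable def V2 : Tup L n c →ₗ[L] RW L n :=
  LinearMap.pi fun r => (LinearMap.proj r.2).comp (Sharp.VT D (z r.1))

/-- `W` at two points -/
noncomputable def W2 (e : Fin (n + 1) × Fin (n + 1)) : RW L n :=
  fun r => Sharp.WT D (z r.1) e.1 e.2 r.2

/-- the operators at two points -/
noncomputable def op2 : Tup L n c × Mt L n →ₗ[L] RW L n :=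
  LinearMap.pi fun r => (LinearMap.proj r.2).comp (op D (z r.1))

theorem V2_apply (G : Tup L n c) (r : Fin 2 × Fin (n + 1)) :
    V2 D z G r = Sharp.VT D (z r.1) G r.2 := rfl

theorem op2_apply (ξ : Tup L n c × Mt L n) (r : Fin 2 × Fin (n + 1)) :
    op2 D z ξ r = op D (z r.1) ξ r.2 := rfl

theorem VT_eq' (u : Fin (n + 1) → L) (G : Tup L n c) :
    Sharp.VT D u G = Sharp.H75.VT D u G := rfl

theorem WT_eq' (u : Fin (n + 1) → L) (p q : Fin (n + 1)) :
    Sharp.WT D u p q = Sharp.H75.WT D u p q := by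
  unfold Sharp.WT Sharp.H75.WT
  rw [Sharp.VT_apply]

theorem sum_WT (u : Fin (n + 1) → L) (A : Mt L n) :
    ∑ p, ∑ q, A p q • Sharp.WT D u p q = op D u (0, A) := by
  classical
  have h0 : op D u (0, A) = Sharp.H75.VT D u 0 + (Sharp.H75.VT D u (afT D A) + mv u A) := rfl
  have h1 : Sharp.H75.VT D u (afT D A) =
      ∑ p, ∑ q, A p q • ∑ m, D.V u m (X q * pderiv p (D.F m)) := by
    rw [Sharp.H75.VT_eq]
    have h2 : ∀ m, D.V u m (afT D A m) =
        ∑ p, ∑ q, A p q • D.V u m (X q * pderiv p (D.F m)) := by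
      intro m
      change D.V u m (af A (D.F m)) = _
      unfold Sharp.H75.af Sharp.H75.lf
      rw [map_sum]
      refine Finset.sum_congr rfl fun p _ => ?_
      rw [Finset.sum_mul, map_sum]
      refine Finset.sum_congr rfl fun q _ => ?_
      rw [mul_assoc, ← smul_eq_C_mul, map_smul]
    simp only [h2]
    rw [Finset.sum_comm]
    refine Finset.sum_congr rfl fun p _ => ?_
    rw [Finset.sum_comm]
    refine Finset.sum_congr rfl fun q _ => ?_
    rw [Finset.smul_sum]
  have h3 : mv u A = ∑ p, ∑ q, A p q • (u q • Pi.single p (1 : L)) := by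
    funext r
    change dt (A r) u = _
    rw [Finset.sum_apply, Finset.sum_eq_single r]
    · rw [Finset.sum_apply]
      unfold Sharp.H75.dt
      refine Finset.sum_congr rfl fun q _ => ?_
      simp
    · intro p _ hp
      rw [Finset.sum_apply]
      refine Finset.sum_eq_zero fun q _ => ?_
      simp [Ne.symm hp]
    · intro h; exact absurd (Finset.mem_univ _) h
  rw [h0, map_zero, zero_add, h1, h3, ← Finset.sum_add_distrib]
  refine Finset.sum_congr rfl fun p _ => ?_
  rw [← Finset.sum_add_distrib]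
  refine Finset.sum_congr rfl fun q _ => ?_
  rw [WT_eq']
  unfold Sharp.H75.WT
  rw [smul_add]
  exact add_comm _ _

theorem sum_W2 (A : Mt L n) : ∑ p, ∑ q, A p q • W2 D z (p, q) = op2 D z (0, A) := by
  funext r
  rw [op2_apply, ← sum_WT]
  simp only [Finset.sum_apply, Pi.smul_apply]
  rfl

theorem W2_eq (e : Fin (n + 1) × Fin (n + 1)) :
    W2 D z e = op2 D z (0, fun p q => if p = e.1 ∧ q = e.2 then 1 else 0) := by
  classical
  rw [← sum_W2, Finset.sum_eq_single e.1, Finset.sum_eq_single e.2]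
  · rw [if_pos ⟨rfl, rfl⟩, one_smul]
  · intro q _ hq
    rw [if_neg (fun h => hq h.2), zero_smul]
  · intro h; exact absurd (Finset.mem_univ _) h
  · intro p _ hp
    refine Finset.sum_eq_zero fun q _ => ?_
    rw [if_neg (fun h => hp h.1), zero_smul]
  · intro h; exact absurd (Finset.mem_univ _) h

theorem V2_eq (G : Tup L n c) : V2 D z G = op2 D z (G, 0) := by
  funext r
  rw [op2_apply, Sharp.H75.op_zero]
  rfl

/-- the space of the variations of the line -/
noncomputable def T2 : Submodule L (RW L n) :=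
  Submodule.span L (Set.range (fx z)) ⊔ ((IL d (z 0) (z 1)).prod ⊤).map (op2 D z)

theorem W2_mem (e : Fin (n + 1) × Fin (n + 1)) : W2 D z e ∈ T2 D z := by
  rw [W2_eq]
  exact Submodule.mem_sup_right ⟨_, ⟨Submodule.zero_mem _, Submodule.mem_top⟩, rfl⟩

theorem V2_mem {G : Tup L n c} (hG : G ∈ IL d (z 0) (z 1)) : V2 D z G ∈ T2 D z := by
  rw [V2_eq]
  exact Submodule.mem_sup_right ⟨_, ⟨hG, Submodule.mem_top⟩, rfl⟩

variable {z}

theorem mem_span_fx {u v : Fin (n + 1) → L} (hu : u ∈ Submodule.span L {z 0, z 1})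
    (hv : v ∈ Submodule.span L {z 0, z 1}) {w : RW L n} (h0 : ∀ p, w (0, p) = u p)
    (h1 : ∀ p, w (1, p) = v p) : w ∈ Submodule.span L (Set.range (fx z)) := by
  obtain ⟨a, b, hab⟩ := Submodule.mem_span_pair.1 hu
  obtain ⟨a', b', hab'⟩ := Submodule.mem_span_pair.1 hv
  have h : w = (a • fx z (0, 0) + b • fx z (0, 1)) + (a' • fx z (1, 0) + b' • fx z (1, 1)) := by
    funext r
    obtain ⟨r1, r2⟩ := r
    have e : r1 = 0 ∨ r1 = 1 := by
      fin_cases r1
      · left; rfl
      · right; rfl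
    rcases e with rfl | rfl
    · rw [h0, ← hab]
      simp [fx]
    · rw [h1, ← hab']
      simp [fx]
  rw [h]
  exact Submodule.add_mem _
    (Submodule.add_mem _ (Submodule.smul_mem _ _ (Submodule.subset_span ⟨_, rfl⟩))
      (Submodule.smul_mem _ _ (Submodule.subset_span ⟨_, rfl⟩)))
    (Submodule.add_mem _ (Submodule.smul_mem _ _ (Submodule.subset_span ⟨_, rfl⟩))
      (Submodule.smul_mem _ _ (Submodule.subset_span ⟨_, rfl⟩)))

variable {D}

theorem op_mem {x y : Fin (n + 1) → L} {ξ : Tup L n c × Mt L n} (hξ : ξ.1 ∈ IL d x y) :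
    op D x ξ ∈ TT D x y := by
  have h : op D x ξ = Sharp.H75.VT D x ξ.1 + (Sharp.H75.VT D x (afT D ξ.2) + mv x ξ.2) := rfl
  rw [h]
  refine Submodule.add_mem _ (Sharp.H75.VT_mem' hξ) ?_
  rw [add_comm (Sharp.H75.VT D x (afT D ξ.2))]
  exact Sharp.H75.WA_mem x y ξ.2

theorem finrank_T2 [CharZero L] (hc : Comm D) (hxy : LinearIndependent L ![z 0, z 1])
    (h0 : ∀ m, eval (z 0) (D.F m) = 0) {κ : ℕ}
    (hE : Module.finrank L (TT D (z 0) (z 1)) ≤ κ + 1) (hn : 2 * κ + 2 + c ≤ n) :
    Module.finrank L (T2 D z) ≤ 4 + κ := by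
  classical
  have hx0 : z 0 ≠ 0 := by
    have := hxy.ne_zero 0
    simpa using this
  have hint := Sharp.H75.integ hc hxy h0 hE hn
  set Λ : Submodule L (RW L n) := Submodule.span L (Set.range (fx z)) with hΛ
  set E : Submodule L (Tup L n c × Mt L n) := (IL d (z 0) (z 1)).prod ⊤ with hEdef
  let Ψ : E →ₗ[L] (RW L n ⧸ Λ) := (Λ.mkQ.comp (op2 D z)).comp E.subtype
  set qx := (Submodule.span L {z 0}).mkQ with hqxdef
  let ψ : E →ₗ[L] ((Fin (n + 1) → L) ⧸ Submodule.span L {z 0}) :=
    (qx.comp (op D (z 0))).comp E.subtype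
  -- the rank of `ψ`
  have hψ : Module.finrank L (LinearMap.range ψ) ≤ κ := by
    have h1 : LinearMap.range ψ ≤ (TT D (z 0) (z 1)).map qx := by
      rintro _ ⟨ξ, rfl⟩
      exact ⟨op D (z 0) ξ.1, op_mem (Submodule.mem_prod.1 ξ.2).1, rfl⟩
    have h2 := Submodule.finrank_mono h1
    have h3 : Module.finrank L ((TT D (z 0) (z 1)).map qx) + 1 ≤
        Module.finrank L (TT D (z 0) (z 1)) := by
      have h4 := LinearMap.finrank_range_add_finrank_ker (qx.domRestrict (TT D (z 0) (z 1)))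
      have h5 : LinearMap.range (qx.domRestrict (TT D (z 0) (z 1))) =
          (TT D (z 0) (z 1)).map qx := by
        rw [LinearMap.range_domRestrict]
      rw [h5] at h4
      have h6 : 1 ≤ Module.finrank L (LinearMap.ker (qx.domRestrict (TT D (z 0) (z 1)))) := by
        rw [Nat.one_le_iff_ne_zero]
        intro h7
        have h8 := Submodule.finrank_eq_zero.1 h7
        have h9 : (⟨z 0, Sharp.H75.x_mem (z 0) (z 1)⟩ : TT D (z 0) (z 1)) ∈
            LinearMap.ker (qx.domRestrict (TT D (z 0) (z 1))) := by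
          rw [LinearMap.mem_ker, LinearMap.domRestrict_apply, hqxdef, Submodule.mkQ_apply,
            Submodule.Quotient.mk_eq_zero]
          exact Submodule.mem_span_singleton_self (z 0)
        rw [h8, Submodule.mem_bot] at h9
        exact hx0 (congrArg Subtype.val h9)
      omega
    omega
  -- the kernels
  have hker : LinearMap.ker ψ ≤ LinearMap.ker Ψ := by
    intro ξ hξ
    have h1 : op D (z 0) ξ.1 ∈ Submodule.span L {z 0} := by
      have h2 : qx (op D (z 0) ξ.1) = 0 := LinearMap.mem_ker.1 hξ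
      rwa [hqxdef, Submodule.mkQ_apply, Submodule.Quotient.mk_eq_zero] at h2
    have h3 : ξ.1 ∈ S0 D (z 0) (z 1) := by
      rw [Sharp.H75.mem_S0]
      exact ⟨(Submodule.mem_prod.1 ξ.2).1, h1⟩
    have h4 : op D (z 1) ξ.1 ∈ Submodule.span L {z 0, z 1} := hint ⟨_, h3, rfl⟩
    have h5 : op D (z 0) ξ.1 ∈ Submodule.span L {z 0, z 1} :=
      Submodule.span_mono (by intro u hu; rw [Set.mem_singleton_iff] at hu; rw [hu]; left; rfl) h1
    rw [LinearMap.mem_ker]
    change Λ.mkQ (op2 D z ξ.1) = 0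
    rw [Submodule.mkQ_apply, Submodule.Quotient.mk_eq_zero]
    exact mem_span_fx h5 h4 (fun p => rfl) (fun p => rfl)
  have hΨ : Module.finrank L (LinearMap.range Ψ) ≤ κ := by
    have h1 : LinearMap.range Ψ = LinearMap.range ((LinearMap.ker ψ).liftQ Ψ hker) := by
      rw [Submodule.range_liftQ]
    have e := ψ.quotKerEquivRange
    have hfin : Module.Finite L (E ⧸ LinearMap.ker ψ) := Module.Finite.equiv e.symm
    have h2 := LinearMap.finrank_range_le ((LinearMap.ker ψ).liftQ Ψ hker)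
    rw [h1]
    rw [e.finrank_eq] at h2
    omega
  -- the space `T2`
  have hmap : (T2 D z).map Λ.mkQ ≤ LinearMap.range Ψ := by
    unfold T2
    rw [Submodule.map_sup]
    refine sup_le ?_ ?_
    · rintro _ ⟨u, hu, rfl⟩
      have : Λ.mkQ u = 0 := by
        rw [Submodule.mkQ_apply, Submodule.Quotient.mk_eq_zero]
        exact hu
      rw [this]
      exact Submodule.zero_mem _
    · rintro _ ⟨_, ⟨ξ, hξ, rfl⟩, rfl⟩
      exact ⟨⟨ξ, hξ⟩, rfl⟩
  have h1 := LinearMap.finrank_range_add_finrank_ker (Λ.mkQ.domRestrict (T2 D z))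
  rw [LinearMap.range_domRestrict] at h1
  have h2 := Submodule.finrank_mono hmap
  have h3 : Module.finrank L (LinearMap.ker (Λ.mkQ.domRestrict (T2 D z))) ≤
      Module.finrank L Λ := by
    rw [← Submodule.finrank_map_subtype_eq (T2 D z)]
    refine Submodule.finrank_mono ?_
    rintro _ ⟨u, hu, rfl⟩
    have h4 : Λ.mkQ u.1 = 0 := LinearMap.mem_ker.1 hu
    rwa [Submodule.mkQ_apply, Submodule.Quotient.mk_eq_zero] at h4
  have h4 : Module.finrank L Λ ≤ 4 := by
    have := finrank_range_le_card (R := L) (fx z)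
    simpa [Set.finrank] using this
  omega

end

end Pool.Agent.Lines.H75
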