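import Pool.Agent.Lib.MP_c7af3c_ag.LINES.Iface
import Pool.Agent.Lib.MP_c7af3c_ag.LINES.H75.Lvar

/-!
# MP_c7af3c_ag, project LINES: modules LVAR and LIDL
-/

set_option autoImplicit false

namespace Pool.Agent.Lines.H75

open MvPolynomial Pool.Agent.Gen

/-- Module LIDL. -/
theorem lidl : LidlStatement := by
  intro L _ _ n e x y hxy G hG h0
  have hx : x ≠ 0 := by
    have := hxy.ne_zero 0
    simpa using this
  obtain ⟨i, hi⟩ : ∃ i, x i ≠ 0 := Function.ne_iff.1 hx
  have h1 := mem_NN ⟨i, Sharp.exists_plu_ne hxy hi⟩ hG h0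
  unfold NN at h1
  refine Submodule.span_mono ?_ h1
  rintro _ ⟨J, i, j, k, hJ, rfl⟩
  exact ⟨i, j, k, J, hJ, mul_comm _ _⟩

section

variable {L : Type} [Field L] {n c : ℕ} {d : Fin c → ℕ} {D : DSys L n c d}
  {x y : Fin (n + 1) → L}

theorem TT_le : Sharp.H75.TT D x y ≤ E1 D x y := by
  classical
  unfold Sharp.H75.TT
  rw [Submodule.span_le, Set.insert_subset_iff]
  refine ⟨Submodule.subset_span (Or.inl (Or.inl rfl)), ?_⟩
  rintro u (⟨p, q, rfl⟩ | ⟨m, G, hG, h0, rfl⟩)
  · rw [← WT_eq']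
    exact Submodule.subset_span (Or.inl (Or.inr ⟨p, q, rfl⟩))
  · refine Submodule.subset_span (Or.inr ⟨Pi.single m G, ?_, ?_, ?_⟩)
    · intro m'
      by_cases h : m' = m
      · subst h
        rw [Pi.single_eq_same]
        exact hG
      · rw [Pi.single_eq_of_ne h]
        exact isHomogeneous_zero _ _ _
    · intro m'
      by_cases h : m' = m
      · subst h
        rw [Pi.single_eq_same]
        exact h0
      · rw [Pi.single_eq_of_ne h]
        exact map_zero _
    · rw [Sharp.VT_apply, Finset.sum_eq_single m]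
      · rw [Pi.single_eq_same]
      · intro m' _ hm
        rw [Pi.single_eq_of_ne hm, map_zero]
      · intro h
        exact absurd (Finset.mem_univ _) h

theorem SL_le : SL D x y ≤ T2 D ![x, y] := by
  have h01 : ∀ r : Fin 2 × Fin (n + 1), (r.1 = 0 ∧ (![x, y] : Fin 2 → _) r.1 = x) ∨
      (r.1 ≠ 0 ∧ (![x, y] : Fin 2 → _) r.1 = y) := by
    rintro ⟨r, s⟩
    fin_cases r
    · left; exact ⟨rfl, rfl⟩
    · right; exact ⟨by simp, rfl⟩
  unfold SL
  rw [Submodule.span_le]
  rintro u ((⟨ab, rfl⟩ | ⟨p, q, rfl⟩) | ⟨G, hG, h0, rfl⟩)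
  · have h : PP x y ab = fx (![x, y] : Fin 2 → _) ab := by
      funext r
      unfold PP fx
      obtain ⟨a, b⟩ := ab
      fin_cases b <;> simp
    rw [h]
    exact Submodule.mem_sup_left (Submodule.subset_span ⟨_, rfl⟩)
  · have h : WW D x y p q = W2 D ![x, y] (p, q) := by
      funext r
      unfold WW W2 pr
      rcases h01 r with ⟨h1, h2⟩ | ⟨h1, h2⟩
      · rw [if_pos h1, h2]
      · rw [if_neg h1, h2]
    rw [h]
    exact W2_mem D _ _
  · have h : VV D x y G = V2 D ![x, y] G := by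
      funext r
      rw [V2_apply]
      unfold VV pr
      rcases h01 r with ⟨h1, h2⟩ | ⟨h1, h2⟩
      · rw [if_pos h1, h2]
      · rw [if_neg h1, h2]
    rw [h]
    exact V2_mem D _ ⟨hG, h0⟩

end

/-- Module LVAR. -/
theorem lvar : LvarStatement := by
  intro L _ _ n c d D hc x y hxy h0 κ hE hn
  have h1 := Submodule.finrank_mono (SL_le (D := D) (x := x) (y := y))
  refine h1.trans (finrank_T2 (z := ![x, y]) (fun m I m' J _ _ f => hc m I m' J f) ?_ ?_ ?_ hn)
  · exact hxy
  · exact h0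
  · exact (Submodule.finrank_mono TT_le).trans hE

end Pool.Agent.Lines.H75
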