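import Pool.Agent.Lib.MP_c7af3c_ag.LINES.H75.PtGen
import Pool.Agent.Lib.MP_c7af3c_ag.LINES.H75.Ext
import Pool.Agent.Lib.MP_c7af3c_ag.SHARP.H26.LemAll
import Pool.Agent.Lib.MP_c7af3c_ag.LINES.Base

/-!
# MP_c7af3c_ag, project LINES: a point of large height lies on a line with small variation (BADL)
-/

set_option autoImplicit false

namespace Pool.Agent.Lines.H75

open MvPolynomial WithZero Pool.Agent.Gen

section

variable {L : Type} [Field L] {n c : ℕ} {d : Fin c → ℕ} (D : DSys L n c d)
  (x : Fin (n + 1) → L) (j0 : Fin (n + 1))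

/-- admissible tuples with integer coefficients -/
def IT (d : Fin c → ℕ) (A : Fin c → MvPolynomial (Fin (n + 1)) L) : Prop :=
  Sharp.Adm d A ∧ ∀ m I, ∃ k : ℤ, coeff I (A m) = k

theorem IT.add {A A' : Fin c → MvPolynomial (Fin (n + 1)) L} (hA : IT d A) (hA' : IT d A') :
    IT d (A + A') := by
  constructor
  · intro m I hI
    rw [Pi.add_apply, coeff_add] at hI
    by_cases h : coeff I (A m) = 0
    · rw [h, zero_add] at hI
      exact hA'.1 m I hI
    · exact hA.1 m I h
  · intro m I
    obtain ⟨k, hk⟩ := hA.2 m I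
    obtain ⟨k', hk'⟩ := hA'.2 m I
    refine ⟨k + k', ?_⟩
    rw [Pi.add_apply, coeff_add, hk, hk', Int.cast_add]

theorem IT.single {m : Fin c} {J : Fin (n + 1) →₀ ℕ} (hJ : J.degree + 1 = d m) :
    IT d (Pi.single m (monomial J 1) : Fin c → MvPolynomial (Fin (n + 1)) L) := by
  classical
  constructor
  · intro m' I hI
    by_cases h : m' = m
    · subst h
      rw [Pi.single_eq_same, coeff_monomial] at hI
      split_ifs at hI with h2
      · rw [← h2]; exact hJ
      · exact absurd rfl hI
    · rw [Pi.single_eq_of_ne h, coeff_zero] at hI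
      exact absurd rfl hI
  · intro m' I
    by_cases h : m' = m
    · subst h
      rw [Pi.single_eq_same, coeff_monomial]
      split_ifs
      · exact ⟨1, by simp⟩
      · exact ⟨0, by simp⟩
    · rw [Pi.single_eq_of_ne h]
      exact ⟨0, by simp⟩

theorem v_int_le (v : Valuation L ℤᵐ⁰) (k : ℤ) : v (k : L) ≤ 1 := by
  obtain ⟨a, rfl | rfl⟩ := k.eq_nat_or_neg
  · exact_mod_cast Pool.Agent.Gen.H52.v_natCast_le v a
  · rw [Int.cast_neg, Valuation.map_neg]
    exact_mod_cast Pool.Agent.Gen.H52.v_natCast_le v a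

theorem IT.cb {A : Fin c → MvPolynomial (Fin (n + 1)) L} (hA : IT d A) (v : Valuation L ℤᵐ⁰)
    (m : Fin c) : Sharp.CB v (A m) 1 := by
  intro I
  obtain ⟨k, hk⟩ := hA.2 m I
  rw [hk]
  exact v_int_le v k

/-- the linear forms vanishing at the point -/
noncomputable def lfl : (Fin (n + 1) → L) →ₗ[L] MvPolynomial (Fin (n + 1)) L where
  toFun u := ∑ i, u i • Sharp.lf x j0 i
  map_add' u v := by
    rw [← Finset.sum_add_distrib]
    exact Finset.sum_congr rfl fun i _ => by rw [Pi.add_apply, add_smul]
  map_smul' a u := by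
    rw [RingHom.id_apply, Finset.smul_sum]
    exact Finset.sum_congr rfl fun i _ => by rw [Pi.smul_apply, smul_assoc]

/-- the maps of Lemma A -/
noncomputable def phiA (A : Fin c → MvPolynomial (Fin (n + 1)) L) :
    (Fin (n + 1) → L) →ₗ[L] (Fin (n + 1) → L) where
  toFun u := Sharp.VT D x (Sharp.mulT A (lfl x j0 u))
  map_add' u v := by rw [map_add, Sharp.VT_mulT_add]
  map_smul' a u := by rw [map_smul, Sharp.VT_mulT_smul, RingHom.id_apply]

theorem phiA_apply (A : Fin c → MvPolynomial (Fin (n + 1)) L) (u : Fin (n + 1) → L) :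
    phiA D x j0 A u = Sharp.VT D x (Sharp.mulT A (lfl x j0 u)) := rfl

theorem lfl_single (i : Fin (n + 1)) : lfl x j0 (Pi.single i 1) = Sharp.lf x j0 i := by
  change ∑ k, (Pi.single i 1 : Fin (n + 1) → L) k • Sharp.lf x j0 k = _
  rw [Finset.sum_eq_single i]
  · rw [Pi.single_eq_same, one_smul]
  · intro k _ hk
    rw [Pi.single_eq_of_ne hk, zero_smul]
  · intro h; exact absurd (Finset.mem_univ _) h

theorem phiA_single (A : Fin c → MvPolynomial (Fin (n + 1)) L) (i : Fin (n + 1)) :
    phiA D x j0 A (Pi.single i 1) = Sharp.VT D x (Sharp.mulT A (Sharp.lf x j0 i)) := by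
  rw [phiA_apply, lfl_single]

theorem phiA_add (A A' : Fin c → MvPolynomial (Fin (n + 1)) L) :
    phiA D x j0 A + phiA D x j0 A' = phiA D x j0 (A + A') := by
  apply LinearMap.ext
  intro u
  rw [LinearMap.add_apply, phiA_apply, phiA_apply, phiA_apply, ← map_add]
  congr 1
  funext m
  simp only [Sharp.mulT, Pi.add_apply, add_mul]

/-- the set of the maps -/
def SA : Set ((Fin (n + 1) → L) →ₗ[L] (Fin (n + 1) → L)) := {φ | ∃ A, IT d A ∧ φ = phiA D x j0 A}

/-- the space of `x` and the `W` -/
def T0 : Submodule L (Fin (n + 1) → L) :=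
  Submodule.span L (insert x (Set.range fun e : Fin (n + 1) × Fin (n + 1) =>
    Sharp.WT D x e.1 e.2))

theorem span_basis : Submodule.span L (Set.range fun i : Fin (n + 1) =>
    (Pi.single i 1 : Fin (n + 1) → L)) = ⊤ := by
  have h := (Pi.basisFun L (Fin (n + 1))).span_eq
  convert h using 3
  funext i
  rw [Pi.basisFun_apply]

variable {D x j0}

theorem T0_le (h0 : ∀ m, eval x (D.F m) = 0) : T0 D x ≤ KF D x := by
  unfold T0
  rw [Submodule.span_le, Set.insert_subset_iff]
  refine ⟨(mem_KF D x).2 (Sharp.grad_x D x h0), ?_⟩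
  rintro _ ⟨e, rfl⟩
  exact (mem_KF D x).2 (Sharp.grad_WT D x h0 _ _)

theorem phiA_mem_KF (hj0 : x j0 = 1) (h0 : ∀ m, eval x (D.F m) = 0)
    {A : Fin c → MvPolynomial (Fin (n + 1)) L} (hA : IT d A) (i : Fin (n + 1)) :
    Sharp.VT D x (Sharp.mulT A (Sharp.lf x j0 i)) ∈ KF D x :=
  (mem_KF D x).2 (Sharp.grad_mulT D x h0 hA.1 (Sharp.hom_lf x j0 i) (Sharp.eval_lf x hj0 i))

/-- the kernel of the gradients is generated by `x`, the `W` and the `V(A l_i)` -/
theorem KF_le (hj0 : x j0 = 1) {N : Submodule L (Fin (n + 1) → L)}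
    (hT : T0 D x ≤ N) (hN : ∀ A, IT d A → ∀ i, Sharp.VT D x (Sharp.mulT A (Sharp.lf x j0 i)) ∈ N) :
    KF D x ≤ N := by
  classical
  intro u hu
  rw [mem_KF] at hu
  -- the forms which vanish at the point
  have hV : ∀ G : Fin c → MvPolynomial (Fin (n + 1)) L, (∀ m, (G m).IsHomogeneous (d m)) →
      (∀ m, eval x (G m) = 0) → Sharp.VT D x G ∈ N := by
    intro G hG hG0
    have h1 : G = ∑ m, (Pi.single m (G m) : Fin c → MvPolynomial (Fin (n + 1)) L) := by
      funext m'
      rw [Finset.sum_apply, Finset.sum_eq_single m', Pi.single_eq_same]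
      · intro m _ hm
        rw [Pi.single_eq_of_ne (Ne.symm hm)]
      · intro h; exact absurd (Finset.mem_univ _) h
    rw [h1, map_sum]
    refine Submodule.sum_mem _ fun m _ => ?_
    have h2 := mem_pt (x := x) (j0 := j0) (hG m) (hG0 m)
    have h3 : ∀ P ∈ Submodule.span L {P | ∃ (J : Fin (n + 1) →₀ ℕ) (k : Fin (n + 1)),
        J.degree + 1 = d m ∧ P = monomial J 1 * Sharp.lf x j0 k},
        Sharp.VT D x (Pi.single m P) ∈ N := by
      intro P hP
      induction hP using Submodule.span_induction with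
      | mem P hP =>
        obtain ⟨J, k, hJ, rfl⟩ := hP
        have h4 := hN _ (IT.single (L := L) hJ) k
        have h5 : Sharp.mulT (Pi.single m (monomial J 1)) (Sharp.lf x j0 k) =
            (Pi.single m (monomial J 1 * Sharp.lf x j0 k) :
              Fin c → MvPolynomial (Fin (n + 1)) L) := by
          funext m'
          unfold Sharp.mulT
          by_cases h : m' = m
          · subst h
            rw [Pi.single_eq_same, Pi.single_eq_same]
          · rw [Pi.single_eq_of_ne h, Pi.single_eq_of_ne h, zero_mul]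
        rwa [h5] at h4
      | zero => rw [Pi.single_zero, map_zero]; exact Submodule.zero_mem _
      | add P Q _ _ h1 h2 => rw [Pi.single_add, map_add]; exact Submodule.add_mem _ h1 h2
      | smul a P _ h1 => rw [Pi.single_smul, map_smul]; exact Submodule.smul_mem _ _ h1
    exact h3 _ h2
  -- decomposition
  have h1 : u = ∑ p, u p • Sharp.WT D x p j0 -
      Sharp.VT D x (∑ p, u p • fun m => X j0 * pderiv p (D.F m)) := by
    rw [map_sum, ← Finset.sum_sub_distrib]
    have h2 : ∀ p, u p • Sharp.WT D x p j0 -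
        Sharp.VT D x (u p • fun m => X j0 * pderiv p (D.F m)) =
        u p • (Pi.single p 1 : Fin (n + 1) → L) := by
      intro p
      unfold Sharp.WT
      rw [map_smul, smul_add, add_sub_cancel_right, hj0, one_smul]
    rw [Finset.sum_congr rfl fun p _ => h2 p]
    funext q
    rw [Finset.sum_apply, Finset.sum_eq_single q]
    · simp
    · intro p _ hp
      simp [Ne.symm hp]
    · intro h; exact absurd (Finset.mem_univ _) h
  rw [h1]
  refine Submodule.sub_mem _ (Submodule.sum_mem _ fun p _ => Submodule.smul_mem _ _ ?_)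
    (hV _ ?_ ?_)
  · exact hT (Submodule.subset_span (Set.mem_insert_of_mem _ ⟨(p, j0), rfl⟩))
  · intro m
    rw [Finset.sum_apply]
    refine IsHomogeneous.sum _ _ _ fun p _ => ?_
    have h2 := (isHomogeneous_C (Fin (n + 1)) (u p)).mul (Sharp.hom_XF' D m p j0)
    rw [zero_add] at h2
    rw [Pi.smul_apply, smul_eq_C_mul]
    exact h2
  · intro m
    rw [Finset.sum_apply, map_sum, ← hu m]
    refine Finset.sum_congr rfl fun p _ => ?_
    rw [Pi.smul_apply, smul_eq_C_mul, map_mul, eval_C, map_mul, eval_X, hj0]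
    ring

theorem ht_nonneg (S : PlaceSys L) (hj0 : x j0 = 1) : 0 ≤ S.ht x :=
  finsum_nonneg fun p => mul_nonneg (by positivity) (S.log_mx_nonneg x hj0 p)

/-- the height inequality from the `W` and the pairs (the other columns are filled up) -/
theorem hpair' (hj0 : x j0 = 1) (h0 : ∀ m, eval x (D.F m) = 0)
    (S : PlaceSys L) (hS : S.IsProd) (B : S.V → ℕ) (hB : Sharp.BD S D B) {w P : ℕ}
    (W : Fin w → Fin (n + 1) × Fin (n + 1))
    (A : Fin P → Fin c → MvPolynomial (Fin (n + 1)) L) (hA : ∀ j, IT d (A j))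
    (i i' : Fin P → Fin (n + 1))
    (hT : T0 D x ≤ Submodule.span L (Set.range (Sum.elim (fun _ : Unit => x)
      fun a => Sharp.WT D x (W a).1 (W a).2)))
    (hli : LinearIndependent L (Sum.elim (Sum.elim (fun _ : Unit => x)
      fun a => Sharp.WT D x (W a).1 (W a).2)
      (Sum.elim (fun j => Sharp.VT D x (Sharp.mulT (A j) (Sharp.lf x j0 (i j))))
        fun j => Sharp.VT D x (Sharp.mulT (A j) (Sharp.lf x j0 (i' j))))))
    (hnum : 2 * n + 2 ≤ c + ∑ m, d m + w + P) :
    S.ht x ≤ (2 * n + 2) * Sharp.tot S B := by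
  classical
  obtain ⟨t, ψ, hψ, hsp⟩ := ext_fam _ hli
    (fun q : {A : Fin c → MvPolynomial (Fin (n + 1)) L // IT d A} × Fin (n + 1) =>
      Sharp.VT D x (Sharp.mulT q.1.1 (Sharp.lf x j0 q.2)))
  set fam := Sum.elim (Sum.elim (Sum.elim (fun _ : Unit => x)
      fun a => Sharp.WT D x (W a).1 (W a).2)
      (Sum.elim (fun j => Sharp.VT D x (Sharp.mulT (A j) (Sharp.lf x j0 (i j))))
        fun j => Sharp.VT D x (Sharp.mulT (A j) (Sharp.lf x j0 (i' j)))))
      ((fun q : {A : Fin c → MvPolynomial (Fin (n + 1)) L // IT d A} × Fin (n + 1) =>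
      Sharp.VT D x (Sharp.mulT q.1.1 (Sharp.lf x j0 q.2))) ∘ ψ) with hfam
  -- the number of columns
  have hcard : 1 + w + (P + P) + t + c = n + 1 := by
    have h1 : KF D x ≤ Submodule.span L (Set.range fam) := by
      refine KF_le hj0 ?_ fun A hA i => hsp (⟨A, hA⟩, i)
      refine hT.trans (Submodule.span_mono ?_)
      rintro _ ⟨a, rfl⟩
      exact ⟨Sum.inl (Sum.inl a), rfl⟩
    have h2 : Submodule.span L (Set.range fam) ≤ KF D x := by
      rw [Submodule.span_le]
      rintro _ ⟨(((_ | a) | (j | j)) | q), rfl⟩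
      · exact (mem_KF D x).2 (Sharp.grad_x D x h0)
      · exact (mem_KF D x).2 (Sharp.grad_WT D x h0 _ _)
      · exact phiA_mem_KF hj0 h0 (hA j) _
      · exact phiA_mem_KF hj0 h0 (hA j) _
      · exact phiA_mem_KF hj0 h0 (ψ q).1.2 _
    have h3 := finrank_span_eq_card hψ
    rw [le_antisymm h2 h1] at h3
    have h4 := finrank_KF D x hj0 h0
    simp only [Fintype.card_sum, Fintype.card_fin, Fintype.card_unit] at h3
    omega
  have hli' : LinearIndependent L (Sharp.colP D x j0 W A i i' (fun j => (ψ j).1.1)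
      fun j => (ψ j).2) := by
    have h1 := hψ.comp (Equiv.sumAssoc (Unit ⊕ Fin w) (Fin P ⊕ Fin P) (Fin t)).symm
      (Equiv.injective _)
    have h2 : Sharp.colP D x j0 W A i i' (fun j => (ψ j).1.1) (fun j => (ψ j).2) =
        fam ∘ (Equiv.sumAssoc (Unit ⊕ Fin w) (Fin P ⊕ Fin P) (Fin t)).symm := by
      funext a
      rcases a with (a | ((j | j) | j)) <;> rfl
    rw [h2]
    exact h1
  have h := Sharp.hpair D x hj0 h0 S hS B hB W A (fun j => (hA j).1)
    (fun p j m => (hA j).cb (S.v p) m) i i' (fun j => (ψ j).1.1) (fun j => (ψ j).1.2.1)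
    (fun p j m => (ψ j).1.2.cb (S.v p) m) (fun j => (ψ j).2) hli' (by omega)
  have hn := ht_nonneg (j0 := j0) S hj0
  have h5 : (((1 + w + 3 * P + 2 * t + c : ℕ) : ℤ)) + 1 ≤ ((∑ m, d m : ℕ) : ℤ) := by
    exact_mod_cast (by omega : 1 + w + 3 * P + 2 * t + c + 1 ≤ ∑ m, d m)
  push_cast at h h5 ⊢
  nlinarith [mul_le_mul_of_nonneg_right h5 hn]

theorem f_eq (f : (Fin (n + 1) → L) →ₗ[L] L) (u : Fin (n + 1) → L) :
    f u = ∑ i, u i * f (Pi.single i 1) := by
  have h := (Pi.basisFun L (Fin (n + 1))).sum_repr u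
  conv_lhs => rw [← h]
  rw [map_sum]
  refine Finset.sum_congr rfl fun i _ => ?_
  rw [map_smul, Pi.basisFun_repr, Pi.basisFun_apply, smul_eq_mul]

/-- Module BADL. -/
theorem badl (hj0 : x j0 = 1) (h0 : ∀ m, eval x (D.F m) = 0)
    (e : ℕ) (h1 : 2 * n + 1 ≤ c + ∑ m, d m + e)
    (h2 : 2 * e + 2 + c ≤ n) (S : PlaceSys L) (hS : S.IsProd) (B : S.V → ℕ)
    (hB : Sharp.BD S D B) :
    S.ht x ≤ (2 * n + 2) * Sharp.tot S B ∨
      ∃ y, LinearIndependent L ![x, y] ∧ y j0 = 0 ∧
        Module.finrank L (E1 D x y) ≤ e + 1 := by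
  classical
  have hx : x ≠ 0 := fun h => by rw [h] at hj0; exact zero_ne_one hj0
  have hx1 : LinearIndependent L (fun _ : Unit => x) := by
    rw [linearIndependent_unique_iff]
    exact hx
  obtain ⟨w, W, hW, hWs⟩ := ext_fam (fun _ : Unit => x) hx1
    (fun e : Fin (n + 1) × Fin (n + 1) => Sharp.WT D x e.1 e.2)
  have hW' : LinearIndependent L (Sum.elim (fun _ : Unit => x)
      fun a => Sharp.WT D x (W a).1 (W a).2) := hW
  have hT : T0 D x ≤ Submodule.span L (Set.range (Sum.elim (fun _ : Unit => x)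
      fun a => Sharp.WT D x (W a).1 (W a).2)) := by
    unfold T0
    rw [Submodule.span_le, Set.insert_subset_iff]
    refine ⟨Submodule.subset_span ⟨Sum.inl (), rfl⟩, ?_⟩
    rintro _ ⟨e, rfl⟩
    exact hWs e
  have hTr : Module.finrank L (T0 D x) = 1 + w := by
    have h3 := finrank_span_eq_card hW'
    have h4 : T0 D x = Submodule.span L (Set.range (Sum.elim (fun _ : Unit => x)
      fun a => Sharp.WT D x (W a).1 (W a).2)) := by
      refine le_antisymm hT ?_
      unfold T0
      refine Submodule.span_mono ?_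
      rintro _ ⟨(_ | a), rfl⟩
      · exact Set.mem_insert _ _
      · exact Set.mem_insert_of_mem _ ⟨W a, rfl⟩
    rw [h4, h3, Fintype.card_sum, Fintype.card_fin, Fintype.card_unit]
  by_cases hwe : e + 1 ≤ w
  · -- many `W`
    left
    refine hpair' hj0 h0 S hS B hB W (P := 0) Fin.elim0 (fun j => j.elim0) Fin.elim0 Fin.elim0 hT
      ?_ (by omega)
    have h3 := hW'.comp (Sum.elim id (Sum.elim (Fin.elim0 : Fin 0 → Unit ⊕ Fin w)
      (Fin.elim0 : Fin 0 → Unit ⊕ Fin w))) (by
        rintro (a | (j | j)) (b | (j' | j')) h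
        · exact congrArg Sum.inl h
        all_goals first | exact j.elim0 | exact j'.elim0)
    convert h3 using 1
    funext a
    rcases a with (a | (j | j))
    · rfl
    · exact j.elim0
    · exact j.elim0
  push Not at hwe
  by_cases hP : Sharp.LA.HasPairs (fun i : Fin (n + 1) => (Pi.single i 1 : Fin (n + 1) → L))
      (SA D x j0) (T0 D x) (e - w + 1)
  · -- many pairs
    left
    obtain ⟨φ, i, i', hφ, hr⟩ := hP
    choose A hA hφA using hφ
    refine hpair' hj0 h0 S hS B hB W A hA i i' hT ?_ (by omega)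
    rw [linearIndependent_iff_card_le_finrank_span]
    simp only [Fintype.card_sum, Fintype.card_fin, Fintype.card_unit]
    rw [hTr] at hr
    have h3 : T0 D x ⊔ ⨆ j, Sharp.LA.pl (fun i : Fin (n + 1) => (Pi.single i 1 : Fin (n + 1) → L))
        (φ j) (i j) (i' j) ≤ Submodule.span L (Set.range (Sum.elim (Sum.elim (fun _ : Unit => x)
      fun a => Sharp.WT D x (W a).1 (W a).2)
      (Sum.elim (fun j => Sharp.VT D x (Sharp.mulT (A j) (Sharp.lf x j0 (i j))))
        fun j => Sharp.VT D x (Sharp.mulT (A j) (Sharp.lf x j0 (i' j)))))) := by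
      refine sup_le (hT.trans (Submodule.span_mono ?_)) (iSup_le fun j => ?_)
      · rintro _ ⟨a, rfl⟩
        exact ⟨Sum.inl a, rfl⟩
      · unfold Sharp.LA.pl
        rw [Submodule.span_le]
        rintro u (rfl | rfl)
        · refine Submodule.subset_span ⟨Sum.inr (Sum.inl j), ?_⟩
          rw [hφA j, phiA_single]
          rfl
        · refine Submodule.subset_span ⟨Sum.inr (Sum.inr j), ?_⟩
          rw [hφA j, phiA_single]
          rfl
    have h4 := Submodule.finrank_mono h3
    rw [hr] at h4
    refine le_trans (by omega) h4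
  · -- a line
    right
    have hKF : KF D x ≤ T0 D x ⊔ Sharp.LA.Im (SA D x j0) ⊤ := by
      refine KF_le hj0 le_sup_left fun A hA i => ?_
      refine Submodule.mem_sup_right ?_
      rw [← phiA_single]
      exact Sharp.LA.mem_Im (SA D x j0) ⟨A, hA, rfl⟩ Submodule.mem_top
    have h3 := Submodule.finrank_mono hKF
    have h4 := finrank_KF D x hj0 h0
    obtain ⟨f, hf, hf1, hf2⟩ := Sharp.LA.lemAll (SA D x j0) span_basis (by
      rintro _ ⟨A, hA, rfl⟩ _ ⟨A', hA', rfl⟩
      exact ⟨A + A', hA.add hA', phiA_add D x j0 A A'⟩) (e - w) (T0 D x) (by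
        rw [hTr]; omega) hP
    rw [hTr] at hf2
    have hyj : f (Pi.single j0 1) = 0 := by
      refine hf1 _ ?_
      rintro _ ⟨A, hA, rfl⟩
      have h5 : Sharp.mulT A (Sharp.lf x j0 j0) = 0 := by
        funext m
        unfold Sharp.mulT Sharp.lf
        rw [hj0, C_1, one_mul, sub_self, mul_zero]
        rfl
      rw [phiA_single, h5, map_zero]
      exact Submodule.zero_mem _
    set y : Fin (n + 1) → L := fun i => f (Pi.single i 1) with hy
    have hyj' : y j0 = 0 := hyj
    have hy0 : y ≠ 0 := by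
      intro h
      apply hf
      apply LinearMap.ext
      intro u
      rw [f_eq f u, LinearMap.zero_apply]
      refine Finset.sum_eq_zero fun i _ => ?_
      have : y i = 0 := by rw [h]; rfl
      rw [hy] at this
      simp only at this
      rw [this, mul_zero]
    refine ⟨y, ?_, hyj, ?_⟩
    · rw [LinearIndependent.pair_iff]
      intro a b hab
      have h5 := congrFun hab j0
      rw [Pi.add_apply, Pi.smul_apply, Pi.smul_apply, hj0, hyj', smul_zero, add_zero,
        Pi.zero_apply, smul_eq_mul, mul_one] at h5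
      rw [h5, zero_smul, zero_add] at hab
      exact ⟨h5, (smul_eq_zero.1 hab).resolve_right hy0⟩
    · refine (Submodule.finrank_mono (?_ : E1 D x y ≤ T0 D x ⊔
        Sharp.LA.Im (SA D x j0) (LinearMap.ker f))).trans (by omega)
      unfold E1
      rw [Submodule.span_le]
      rintro u ((hu | ⟨p, q, rfl⟩) | ⟨G, hG, hG0, rfl⟩)
      · rw [Set.mem_singleton_iff] at hu
        rw [hu]
        exact Submodule.mem_sup_left (Submodule.subset_span (Set.mem_insert _ _))
      · exact Submodule.mem_sup_left (Submodule.subset_span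
          (Set.mem_insert_of_mem _ ⟨(p, q), rfl⟩))
      · refine Submodule.mem_sup_right ?_
        have hG1 : G = ∑ m, (Pi.single m (G m) : Fin c → MvPolynomial (Fin (n + 1)) L) := by
          funext m'
          rw [Finset.sum_apply, Finset.sum_eq_single m', Pi.single_eq_same]
          · intro m _ hm
            rw [Pi.single_eq_of_ne (Ne.symm hm)]
          · intro h; exact absurd (Finset.mem_univ _) h
        rw [hG1, map_sum]
        refine Submodule.sum_mem _ fun m _ => ?_
        obtain ⟨i1, hi1⟩ : ∃ i, y i ≠ 0 := Function.ne_iff.1 hy0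
        have hpl : Sharp.plu x y j0 i1 ≠ 0 := by
          unfold Sharp.plu
          rw [hj0, hyj', mul_zero, sub_zero, one_mul]
          exact hi1
        have h6 := mem_NN ⟨j0, i1, hpl⟩ (hG m) (hG0 m)
        unfold NN at h6
        have h7 : ∀ P ∈ Submodule.span L {P | ∃ (J : Fin (n + 1) →₀ ℕ) (i j k : Fin (n + 1)),
            J.degree + 1 = d m ∧ P = monomial J 1 * Sharp.hT x y i j k},
            Sharp.VT D x (Pi.single m P) ∈ Sharp.LA.Im (SA D x j0) (LinearMap.ker f) := by
          intro P hP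
          induction hP using Submodule.span_induction with
          | mem P hP =>
            obtain ⟨J, i, j, k, hJ, rfl⟩ := hP
            set u : Fin (n + 1) → L := Sharp.plu x y i j • Pi.single k 1 -
              Sharp.plu x y i k • Pi.single j 1 + Sharp.plu x y j k • Pi.single i 1 with hu
            have h8 : lfl x j0 u = Sharp.hT x y i j k := by
              rw [hu, map_add, map_sub, map_smul, map_smul, map_smul, lfl_single, lfl_single,
                lfl_single]
              unfold Sharp.hT Sharp.lf Sharp.plu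
              simp only [smul_eq_C_mul, map_sub, map_mul]
              ring
            have h9 : u ∈ LinearMap.ker f := by
              rw [LinearMap.mem_ker, hu, map_add, map_sub, map_smul, map_smul, map_smul]
              change Sharp.plu x y i j * y k - Sharp.plu x y i k * y j +
                Sharp.plu x y j k * y i = 0
              unfold Sharp.plu
              ring
            have h10 : Sharp.VT D x (Pi.single m (monomial J 1 * Sharp.hT x y i j k)) =
                phiA D x j0 (Pi.single m (monomial J 1)) u := by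
              rw [phiA_apply, h8]
              congr 1
              funext m'
              unfold Sharp.mulT
              by_cases h : m' = m
              · subst h
                rw [Pi.single_eq_same, Pi.single_eq_same]
              · rw [Pi.single_eq_of_ne h, Pi.single_eq_of_ne h, zero_mul]
            rw [h10]
            exact Sharp.LA.mem_Im (SA D x j0) ⟨_, IT.single hJ, rfl⟩ h9
          | zero => rw [Pi.single_zero, map_zero]; exact Submodule.zero_mem _
          | add P Q _ _ h1 h2 => rw [Pi.single_add, map_add]; exact Submodule.add_mem _ h1 h2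
          | smul a P _ h1 => rw [Pi.single_smul, map_smul]; exact Submodule.smul_mem _ _ h1
        exact h7 _ h6

end

end Pool.Agent.Lines.H75
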