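import Pool.Agent.Lib.MP_c7af3c_ag.SHARP.H26.Size
import Pool.Agent.Lib.MP_c7af3c_ag.SHARP.H75.Integ2

/-!
# MP_c7af3c_ag: the forms which vanish on a line are generated by the three term forms
-/

set_option autoImplicit false

namespace Pool.Agent.Lines.H75

open MvPolynomial Pool.Agent.Gen

section

variable {L : Type} [Field L] {n : ℕ}

/-- a form which vanishes on the line vanishes at every point of the line -/
theorem aeval_line_zero {x y : Fin (n + 1) → L} {e : ℕ} {G : MvPolynomial (Fin (n + 1)) L}
    (hG : G.IsHomogeneous e) (h0 : Sharp.lineP G x y = 0) {R : Type} [CommRing R] [Algebra L R]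
    (S T : R) : aeval (fun k => x k • S + y k • T) G = 0 := by
  set q : MvPolynomial (Fin 2) L := aeval (fun k => C (x k) * X 1 + C (y k) * X 0) G with hq
  have h1 : q.IsHomogeneous e := by
    have h2 := hG.aeval (fun k => C (x k) * X (1 : Fin 2) + C (y k) * X 0) (n := 1)
      (fun k => by
        refine IsHomogeneous.add ?_ ?_
        · simpa using (isHomogeneous_C _ (x k)).mul (isHomogeneous_X L (1 : Fin 2))
        · simpa using (isHomogeneous_C _ (y k)).mul (isHomogeneous_X L (0 : Fin 2)))
    rwa [one_mul] at h2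
  have h2 : aeval ![Polynomial.X, 1] q = Sharp.lineP G x y := by
    rw [hq]
    unfold Sharp.lineP
    rw [← AlgHom.comp_apply, comp_aeval]
    congr 2
    funext k
    rw [map_add, map_mul, map_mul, aeval_X, aeval_X, algHom_C, algHom_C]
    simp only [Matrix.cons_val_one, Matrix.cons_val_zero, mul_one, Polynomial.algebraMap_eq]
    rw [mul_comm Polynomial.X]
  have h3 := Polynomial.homogenize_eq_of_isHomogeneous h1 h2
  rw [h0, Polynomial.homogenize_zero] at h3
  have h4 : aeval ![T, S] q = aeval (fun k => x k • S + y k • T) G := by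
    rw [hq, ← AlgHom.comp_apply, comp_aeval]
    congr 2
    funext k
    simp [Algebra.smul_def]
  rw [← h4, ← h3, map_zero]

variable (x y : Fin (n + 1) → L)

/-- the products of monomials and three term forms -/
noncomputable def NN (e : ℕ) : Submodule L (MvPolynomial (Fin (n + 1)) L) :=
  Submodule.span L {P | ∃ (J : Fin (n + 1) →₀ ℕ) (i j k : Fin (n + 1)), J.degree + 1 = e ∧
    P = monomial J 1 * Sharp.hT x y i j k}

theorem mul_hT_mem {e : ℕ} {Q : MvPolynomial (Fin (n + 1)) L} (hQ : Q.IsHomogeneous e)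
    (i j k : Fin (n + 1)) : Q * Sharp.hT x y i j k ∈ NN x y (e + 1) := by
  rw [Q.as_sum, Finset.sum_mul]
  refine Submodule.sum_mem _ fun J hJ => ?_
  have h1 : J.degree = e := by
    have := hQ (mem_support_iff.1 hJ)
    rw [← this, Finsupp.degree_eq_weight_one]
    rfl
  have h2 : monomial J (coeff J Q) * Sharp.hT x y i j k =
      coeff J Q • (monomial J 1 * Sharp.hT x y i j k) := by
    rw [← smul_mul_assoc, smul_monomial, smul_eq_mul, mul_one]
  rw [h2]
  exact Submodule.smul_mem _ _ (Submodule.subset_span ⟨J, i, j, k, by rw [h1], rfl⟩)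

theorem X_mul_mem {e : ℕ} (l : Fin (n + 1)) {P : MvPolynomial (Fin (n + 1)) L}
    (hP : P ∈ NN x y e) : X l * P ∈ NN x y (e + 1) := by
  unfold NN at hP
  induction hP using Submodule.span_induction with
  | mem P hP =>
    obtain ⟨J, i, j, k, hJ, rfl⟩ := hP
    refine Submodule.subset_span ⟨J + Finsupp.single l 1, i, j, k, ?_, ?_⟩
    · rw [map_add, Finsupp.degree_single, hJ]
    · rw [← mul_assoc]
      congr 1
      rw [add_comm J, monomial_single_add, pow_one]
  | zero => rw [mul_zero]; exact Submodule.zero_mem _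
  | add P Q _ _ h1 h2 => rw [mul_add]; exact Submodule.add_mem _ h1 h2
  | smul a P _ h1 => rw [mul_smul_comm]; exact Submodule.smul_mem _ _ h1

variable {x y}

theorem sub_mem_NN {i0 j0 : Fin (n + 1)} (hp : Sharp.plu x y i0 j0 ≠ 0) (e : ℕ) :
    ∀ G : MvPolynomial (Fin (n + 1)) L, G.IsHomogeneous e →
    G - aeval (fun k => x k • ((Sharp.plu x y i0 j0)⁻¹ • (C (y j0) * X i0 - C (y i0) * X j0)) +
      y k • ((Sharp.plu x y i0 j0)⁻¹ • (C (x i0) * X j0 - C (x j0) * X i0))) G ∈ NN x y e := by
  classical
  set f : Fin (n + 1) → MvPolynomial (Fin (n + 1)) L := fun k =>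
    x k • ((Sharp.plu x y i0 j0)⁻¹ • (C (y j0) * X i0 - C (y i0) * X j0)) +
      y k • ((Sharp.plu x y i0 j0)⁻¹ • (C (x i0) * X j0 - C (x j0) * X i0)) with hf
  have hfh : ∀ k, (f k).IsHomogeneous 1 := by
    intro k
    have h1 : ∀ (a : L) (i : Fin (n + 1)),
        (C a * X i : MvPolynomial (Fin (n + 1)) L).IsHomogeneous 1 := fun a i => by
      simpa using (isHomogeneous_C _ a).mul (isHomogeneous_X L i)
    have h2 : ∀ (a : L) {P : MvPolynomial (Fin (n + 1)) L}, P.IsHomogeneous 1 →
        (a • P).IsHomogeneous 1 := fun a P hP => by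
      rw [smul_eq_C_mul]
      simpa using (isHomogeneous_C _ a).mul hP
    exact (h2 _ (h2 _ ((h1 _ _).sub (h1 _ _)))).add (h2 _ (h2 _ ((h1 _ _).sub (h1 _ _))))
  have hfk : ∀ k, X k - f k = (Sharp.plu x y i0 j0)⁻¹ • Sharp.hT x y i0 j0 k := by
    intro k
    have h1 : (Sharp.plu x y i0 j0) • (X k - f k) = Sharp.hT x y i0 j0 k := by
      rw [smul_sub, hf]
      simp only
      rw [smul_add, smul_comm _ (x k), smul_comm _ (y k), smul_smul _ _⁻¹, smul_smul _ _⁻¹,
        mul_inv_cancel₀ hp, one_smul, one_smul]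
      unfold Sharp.hT Sharp.plu
      simp only [smul_eq_C_mul, map_sub, map_mul]
      ring
    rw [← h1, smul_smul, inv_mul_cancel₀ hp, one_smul]
  induction e with
  | zero =>
    intro G hG
    have h1 : G = C (coeff 0 G) := by
      by_cases hz : G = 0
      · rw [hz, coeff_zero, map_zero]
      · exact totalDegree_eq_zero_iff_eq_C.1 (hG.totalDegree hz)
    rw [h1, aeval_C, ← algebraMap_eq, sub_self]
    exact Submodule.zero_mem _
  | succ e ih =>
    intro G hG
    rw [G.as_sum, map_sum, ← Finset.sum_sub_distrib]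
    refine Submodule.sum_mem _ fun J hJ => ?_
    have hJd : J.degree = e + 1 := by
      have := hG (mem_support_iff.1 hJ)
      rw [← this, Finsupp.degree_eq_weight_one]
      rfl
    obtain ⟨l, hl⟩ : ∃ l, J l ≠ 0 := by
      by_contra hcon
      push Not at hcon
      have : J = 0 := Finsupp.ext hcon
      rw [this, map_zero] at hJd
      omega
    have hJ' : J = Finsupp.single l 1 + (J - Finsupp.single l 1) := by
      rw [add_tsub_cancel_of_le]
      rw [Finsupp.single_le_iff]
      omega
    set J' := J - Finsupp.single l 1 with hJ'def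
    have hJ'd : J'.degree = e := by
      rw [hJ', map_add, Finsupp.degree_single] at hJd
      omega
    have hm : monomial J (coeff J G) = X l * monomial J' (coeff J G) := by
      conv_lhs => rw [hJ']
      rw [monomial_single_add, pow_one]
      rw [← hJ']
    have hmh : (monomial J' (coeff J G)).IsHomogeneous e := isHomogeneous_monomial _ hJ'd
    rw [hm, map_mul, aeval_X]
    set m := monomial J' (coeff J G) with hmdef
    have h3 : X l * m - f l * aeval f m = X l * (m - aeval f m) + (X l - f l) * aeval f m := by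
      ring
    rw [h3]
    refine Submodule.add_mem _ (X_mul_mem x y l (ih m hmh)) ?_
    rw [hfk, smul_mul_assoc, mul_comm]
    refine Submodule.smul_mem _ _ (mul_hT_mem x y ?_ i0 j0 l)
    have h4 := hmh.aeval f (n := 1) hfh
    rwa [one_mul] at h4

/-- the forms which vanish on the line -/
theorem mem_NN (hxy : ∃ i j, Sharp.plu x y i j ≠ 0) {e : ℕ} {G : MvPolynomial (Fin (n + 1)) L}
    (hG : G.IsHomogeneous e) (h0 : Sharp.lineP G x y = 0) : G ∈ NN x y e := by
  obtain ⟨i0, j0, hp⟩ := hxy
  have h1 := sub_mem_NN hp e G hG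
  rwa [aeval_line_zero hG h0, sub_zero] at h1

end

end Pool.Agent.Lines.H75
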