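import Pool.Agent.Lib.MP_c7af3c_ag.LINES.H75.Gen
import Pool.Agent.Lib.MP_c7af3c_ag.SHARP.H26.Pair

/-!
# MP_c7af3c_ag: the forms which vanish at a point, the kernel of the gradients
-/

set_option autoImplicit false

namespace Pool.Agent.Lines.H75

open MvPolynomial Pool.Agent.Gen

section

variable {L : Type} [Field L] {n : ℕ}

/-- the products of monomials and the differences `X_k - f_k` -/
noncomputable def ND (f : Fin (n + 1) → MvPolynomial (Fin (n + 1)) L) (e : ℕ) :
    Submodule L (MvPolynomial (Fin (n + 1)) L) :=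
  Submodule.span L {P | ∃ (J : Fin (n + 1) →₀ ℕ) (k : Fin (n + 1)), J.degree + 1 = e ∧
    P = monomial J 1 * (X k - f k)}

theorem sub_aeval_mem {f : Fin (n + 1) → MvPolynomial (Fin (n + 1)) L}
    (hf : ∀ k, (f k).IsHomogeneous 1) (e : ℕ) :
    ∀ G : MvPolynomial (Fin (n + 1)) L, G.IsHomogeneous e → G - aeval f G ∈ ND f e := by
  classical
  have hX : ∀ (e : ℕ) (l : Fin (n + 1)) (P : MvPolynomial (Fin (n + 1)) L), P ∈ ND f e →
      X l * P ∈ ND f (e + 1) := by
    intro e l P hP
    unfold ND at hP
    induction hP using Submodule.span_induction with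
    | mem P hP =>
      obtain ⟨J, k, hJ, rfl⟩ := hP
      refine Submodule.subset_span ⟨J + Finsupp.single l 1, k, ?_, ?_⟩
      · rw [map_add, Finsupp.degree_single, hJ]
      · rw [← mul_assoc]
        congr 1
        rw [add_comm J, monomial_single_add, pow_one]
    | zero => rw [mul_zero]; exact Submodule.zero_mem _
    | add P Q _ _ h1 h2 => rw [mul_add]; exact Submodule.add_mem _ h1 h2
    | smul a P _ h1 => rw [mul_smul_comm]; exact Submodule.smul_mem _ _ h1
  have hM : ∀ (e : ℕ) (Q : MvPolynomial (Fin (n + 1)) L), Q.IsHomogeneous e → ∀ k,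
      Q * (X k - f k) ∈ ND f (e + 1) := by
    intro e Q hQ k
    rw [Q.as_sum, Finset.sum_mul]
    refine Submodule.sum_mem _ fun J hJ => ?_
    have h1 : J.degree = e := by
      have := hQ (mem_support_iff.1 hJ)
      rw [← this, Finsupp.degree_eq_weight_one]
      rfl
    have h2 : monomial J (coeff J Q) * (X k - f k) =
        coeff J Q • (monomial J 1 * (X k - f k)) := by
      rw [← smul_mul_assoc, smul_monomial, smul_eq_mul, mul_one]
    rw [h2]
    exact Submodule.smul_mem _ _ (Submodule.subset_span ⟨J, k, by rw [h1], rfl⟩)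
  induction e with
  | zero =>
    intro G hG
    have h1 : G = C (coeff 0 G) := by
      by_cases hz : G = 0
      · rw [hz, coeff_zero, map_zero]
      · exact totalDegree_eq_zero_iff_eq_C.1 (hG.totalDegree hz)
    rw [h1, aeval_C, ← algebraMap_eq, sub_self]
    exact Submodule.zero_mem _
  | succ e ih =>
    intro G hG
    rw [G.as_sum, map_sum, ← Finset.sum_sub_distrib]
    refine Submodule.sum_mem _ fun J hJ => ?_
    have hJd : J.degree = e + 1 := by
      have := hG (mem_support_iff.1 hJ)
      rw [← this, Finsupp.degree_eq_weight_one]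
      rfl
    obtain ⟨l, hl⟩ : ∃ l, J l ≠ 0 := by
      by_contra hcon
      push Not at hcon
      have : J = 0 := Finsupp.ext hcon
      rw [this, map_zero] at hJd
      omega
    have hJ' : J = Finsupp.single l 1 + (J - Finsupp.single l 1) := by
      rw [add_tsub_cancel_of_le]
      rw [Finsupp.single_le_iff]
      omega
    set J' := J - Finsupp.single l 1 with hJ'def
    have hJ'd : J'.degree = e := by
      rw [hJ', map_add, Finsupp.degree_single] at hJd
      omega
    have hm : monomial J (coeff J G) = X l * monomial J' (coeff J G) := by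
      conv_lhs => rw [hJ']
      rw [monomial_single_add, pow_one]
      rw [← hJ']
    have hmh : (monomial J' (coeff J G)).IsHomogeneous e := isHomogeneous_monomial _ hJ'd
    rw [hm, map_mul, aeval_X]
    set m := monomial J' (coeff J G) with hmdef
    have h3 : X l * m - f l * aeval f m = X l * (m - aeval f m) + aeval f m * (X l - f l) := by
      ring
    rw [h3]
    refine Submodule.add_mem _ (hX e l _ (ih m hmh)) (hM e _ ?_ l)
    have h4 := hmh.aeval f (n := 1) hf
    rwa [one_mul] at h4

/-- the forms which vanish at a point -/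
theorem mem_pt {x : Fin (n + 1) → L} {j0 : Fin (n + 1)} {e : ℕ}
    {G : MvPolynomial (Fin (n + 1)) L} (hG : G.IsHomogeneous e) (h0 : eval x G = 0) :
    G ∈ Submodule.span L {P | ∃ (J : Fin (n + 1) →₀ ℕ) (k : Fin (n + 1)), J.degree + 1 = e ∧
      P = monomial J 1 * Sharp.lf x j0 k} := by
  have h1 : Sharp.lineP G x (fun _ => 0) = 0 := by
    have h2 : Sharp.lineP G x (fun _ => 0) = aeval (algebraMap L (Polynomial L) ∘ x) G := by
      unfold Sharp.lineP
      congr 2
      funext p
      simp
    rw [h2, aeval_algebraMap_apply]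
    have h3 : aeval x G = eval x G := rfl
    rw [h3, h0, map_zero]
  have h2 := aeval_line_zero hG h1 (R := MvPolynomial (Fin (n + 1)) L) (X j0) (X j0)
  have hf : ∀ k : Fin (n + 1), (x k • X j0 + (0 : L) • X j0 :
      MvPolynomial (Fin (n + 1)) L).IsHomogeneous 1 := by
    intro k
    rw [zero_smul, add_zero, smul_eq_C_mul]
    simpa using (isHomogeneous_C _ (x k)).mul (isHomogeneous_X L j0)
  have h3 := sub_aeval_mem hf e G hG
  rw [h2, sub_zero] at h3
  unfold ND at h3
  refine Submodule.span_mono ?_ h3
  rintro _ ⟨J, k, hJ, rfl⟩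
  refine ⟨J, k, hJ, ?_⟩
  unfold Sharp.lf
  simp only [zero_smul, add_zero, smul_eq_C_mul]

end

section

variable {L : Type} [Field L] {n c : ℕ} {d : Fin c → ℕ} (D : DSys L n c d)
  (x : Fin (n + 1) → L)

/-- the gradients at the point -/
noncomputable def gradL : (Fin (n + 1) → L) →ₗ[L] (Fin c → L) :=
  LinearMap.pi fun m => ∑ p, eval x (pderiv p (D.F m)) • LinearMap.proj p

theorem gradL_apply (u : Fin (n + 1) → L) (m : Fin c) :
    gradL D x u m = ∑ p, eval x (pderiv p (D.F m)) * u p := by
  change (∑ p, eval x (pderiv p (D.F m)) • (LinearMap.proj p : (Fin (n + 1) → L) →ₗ[L] L)) u = _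
  rw [LinearMap.sum_apply]
  rfl

/-- the kernel of the gradients -/
noncomputable def KF : Submodule L (Fin (n + 1) → L) := LinearMap.ker (gradL D x)

theorem mem_KF {u : Fin (n + 1) → L} :
    u ∈ KF D x ↔ ∀ m, ∑ p, eval x (pderiv p (D.F m)) * u p = 0 := by
  unfold KF
  rw [LinearMap.mem_ker]
  constructor
  · intro h m
    rw [← gradL_apply, h]
    rfl
  · intro h
    funext m
    rw [gradL_apply, h]
    rfl

theorem finrank_KF {j0 : Fin (n + 1)} (hj0 : x j0 = 1) (h0 : ∀ m, eval x (D.F m) = 0) :
    Module.finrank L (KF D x) + c = n + 1 := by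
  have h1 := LinearMap.finrank_range_add_finrank_ker (gradL D x)
  have h2 : LinearMap.range (gradL D x) = ⊤ := by
    rw [LinearMap.range_eq_top]
    intro t
    refine ⟨∑ m, (- t m) • D.V x m (X j0 ^ d m), ?_⟩
    funext m'
    rw [map_sum, Finset.sum_apply, Finset.sum_eq_single m']
    · rw [map_smul, Pi.smul_apply, gradL_apply, Sharp.grad_U D x h0 m' m' j0, if_pos rfl, hj0,
        one_pow, smul_eq_mul]
      ring
    · intro m _ hm
      rw [map_smul, Pi.smul_apply, gradL_apply, Sharp.grad_U D x h0 m m' j0, if_neg hm, smul_zero]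
    · intro h; exact absurd (Finset.mem_univ _) h
  rw [h2, finrank_top, Module.finrank_fin_fun, Module.finrank_fin_fun] at h1
  unfold KF
  omega

end

end Pool.Agent.Lines.H75
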